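import Mathlib

/-!
Every infinite connected locally finite graph of non-linear growth has finite site sets with
arbitrarily many infinite Voronoi cells.
-/

namespace Pool.Agent.Results.MP_2b3d15_co.VoronoiInfinite

open SimpleGraph

variable {V : Type*}

/-- the ball `B(v, r)` -/
def ball (G : SimpleGraph V) (v : V) (r : ℕ) : Set V := {u | G.dist u v ≤ r}

/-- `|B(v, r)|` is bounded by a linear function of `r` -/
def LinearGrowthAt (G : SimpleGraph V) (v : V) : Prop :=
  ∃ a b : ℕ, ∀ r : ℕ, (ball G v r).ncard ≤ a * r + b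

/-- the Voronoi cell `C(v, T)` -/
def cell (G : SimpleGraph V) (v : V) (T : Finset V) : Set V :=
  {u | ∀ v' ∈ T, G.dist u v ≤ G.dist u v'}

/-- `I(T)`, the number of infinite Voronoi cells -/
noncomputable def numInfinite (G : SimpleGraph V) (T : Finset V) : ℕ :=
  ({v | v ∈ T ∧ (cell G v T).Infinite} : Set V).ncard

/-- `M(G)`, the supremum of `I(T)` over finite nonempty `T` -/
noncomputable def maxInfinite (G : SimpleGraph V) : ℕ∞ :=
  ⨆ (T : Finset V) (_ : T.Nonempty), (numInfinite G T : ℕ∞)

/-- Every infinite connected locally finite graph in which `|B(o, r)|` is not bounded by a linear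
function of `r` has `M(G) = ∞`. -/
theorem result (G : SimpleGraph V) [Infinite V] [G.LocallyFinite] (hconn : G.Connected) (o : V)
    (hgrow : ¬ LinearGrowthAt G o) : maxInfinite G = ⊤ := by
  classical
  rw [ENat.eq_top_iff_forall_ge]
  intro n
  -- a large ball
  have h1 : ∃ r : ℕ, (2 * n) * r + n < (ball G o r).ncard := by
    by_contra hcon
    push Not at hcon
    exact hgrow ⟨2 * n, n, hcon⟩
  obtain ⟨r, hr⟩ := h1
  have hfin : (ball G o r).Finite := Set.finite_of_ncard_pos (by omega)
  set B : Finset V := hfin.toFinset with hB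
  have hBmem : ∀ v, v ∈ B ↔ G.dist v o ≤ r := fun v => by rw [hB, Set.Finite.mem_toFinset]; rfl
  have hBcard : n * (2 * r + 1) < B.card := by
    rw [Set.ncard_eq_toFinset_card _ hfin] at hr
    calc n * (2 * r + 1) = 2 * n * r + n := by ring
      _ < _ := hr
  -- pigeonhole for every vertex
  have h2 : ∀ x : V, ∃ T : Finset V, T ⊆ B ∧ n < T.card ∧
      ∀ v ∈ T, ∀ v' ∈ T, G.dist x v = G.dist x v' := by
    intro x
    have hmaps : ∀ v ∈ B, G.dist x v + r - G.dist x o ∈ Finset.range (2 * r + 1) := by
      intro v hv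
      rw [hBmem] at hv
      rw [Finset.mem_range]
      have h3 : G.dist x v ≤ G.dist x o + G.dist o v := hconn.dist_triangle
      rw [dist_comm (u := o)] at h3
      omega
    obtain ⟨y, _, hy⟩ := Finset.exists_lt_card_fiber_of_mul_lt_card_of_maps_to hmaps
      (n := n) (by rw [Finset.card_range, mul_comm]; exact hBcard)
    refine ⟨_, Finset.filter_subset _ _, hy, ?_⟩
    intro v hv v' hv'
    rw [Finset.mem_filter] at hv hv'
    have h4 : ∀ w ∈ B, G.dist x o ≤ G.dist x w + r := by
      intro w hw
      rw [hBmem] at hw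
      have h3 : G.dist x o ≤ G.dist x w + G.dist w o := hconn.dist_triangle
      omega
    have h5 := h4 v hv.1
    have h6 := h4 v' hv'.1
    omega
  choose T hTB hTcard hTeq using h2
  -- infinitely many vertices share the same set
  let F : V → {S : Finset V // S ⊆ B} := fun x => ⟨T x, hTB x⟩
  have : Finite {S : Finset V // S ⊆ B} := by
    have : Finite (B.powerset : Set (Finset V)) := Finset.finite_toSet _
    refine Finite.of_injective (β := (B.powerset : Set (Finset V)))
      (fun S => ⟨S.1, by simp [S.2]⟩) ?_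
    intro S S' h
    have h' : S.1 = S'.1 := congrArg (fun z => z.1) h
    exact Subtype.ext h'
  obtain ⟨S, hS⟩ := Finite.exists_infinite_fiber F
  have hSinf : (F ⁻¹' {S}).Infinite := Set.infinite_coe_iff.1 hS
  obtain ⟨x0, hx0⟩ := hSinf.nonempty
  have hx0' : T x0 = S.1 := congrArg Subtype.val hx0
  have hcard : n < S.1.card := by rw [← hx0']; exact hTcard x0
  have hne : S.1.Nonempty := Finset.card_pos.1 (by omega)
  have hcell : ∀ v ∈ S.1, (cell G v S.1).Infinite := by
    intro v hv
    refine hSinf.mono ?_
    intro x hx v' hv'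
    have hx' : T x = S.1 := congrArg Subtype.val hx
    rw [← hx'] at hv hv'
    exact (hTeq x v hv v' hv').le
  have hI : numInfinite G S.1 = S.1.card := by
    unfold numInfinite
    have : ({v | v ∈ S.1 ∧ (cell G v S.1).Infinite} : Set V) = (S.1 : Set V) := by
      ext v
      constructor
      · exact fun h => h.1
      · exact fun h => ⟨h, hcell v h⟩
    rw [this, Set.ncard_coe_finset]
  calc (n : ℕ∞) ≤ (numInfinite G S.1 : ℕ∞) := by rw [hI]; exact_mod_cast hcard.le
    _ ≤ maxInfinite G := le_iSup₂_of_le S.1 hne le_rfl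

end Pool.Agent.Results.MP_2b3d15_co.VoronoiInfinite
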